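import Pool.Agent.V5helper98.TF.Newton
import Pool.Agent.Results.MP_405077_mp.DilationMonotone

/-!
The Thomas-Fermi functional of one nucleus on radial densities.
-/

set_option autoImplicit false
open MeasureTheory Set Filter Topology Metric
open scoped RealInnerProductSpace BigOperators ENNReal
open Pool.Agent.Helper557 Pool.Agent.Helper557.TFP Pool.Agent.H9R2.TF
open Pool.Agent.Results.MP_405077_mp.DilationMonotone

namespace Pool.Agent.V5helper98.TF

/-- the functional of one nucleus of charge `Z` at the origin -/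
noncomputable def AF (Z : ℝ) (ρ : E3 → ℝ) : ℝ :=
  3/5 * (∫ x, ρ x ^ (5/3 : ℝ)) - Z * (∫ x, ρ x / ‖x‖) + 1/2 * ∫ x, ρ x * pot ρ x

lemma AF_eq (Z : ℝ) (ρ : E3 → ℝ) : EF (k := 1) (fun _ => Z) (fun _ => 0) ρ = AF Z ρ := by
  unfold EF AF
  congr 2
  rw [← integral_const_mul]
  congr 1
  funext x
  unfold VV
  simp only [Finset.univ_unique, sub_zero, Finset.sum_const, Finset.card_singleton, one_smul]
  ring

lemma int_div {σ : E3 → ℝ} (hσ : Nice σ) : Integrable (fun x => σ x / ‖x‖) := by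
  have := TF_E2_int σ hσ 0
  simpa using this

lemma lay1 {σ : E3 → ℝ} (h : Adm σ) :
    IntegrableOn (fun s => Ms σ s / s ^ 2) (Ioi 0) ∧
      ∫ x, σ x / ‖x‖ = ∫ s in Ioi (0:ℝ), Ms σ s / s ^ 2 := by
  have hn := nice_of_adm h
  have hMs := Ms_meas h.2.1 h.2.2.1
  have key := layer1 h.1 h.2.1 h.2.2.1
  have hi := int_div hn
  have h0 : ∀ x, 0 ≤ σ x / ‖x‖ := fun x => div_nonneg (h.2.1 x) (norm_nonneg _)
  have hM0 : ∀ s, 0 ≤ Ms σ s / s ^ 2 := fun s => div_nonneg (Ms_nonneg h.2.1 s) (by positivity)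
  have hm : Measurable (fun s => Ms σ s / s ^ 2) := by fun_prop
  constructor
  · refine ⟨hm.aestronglyMeasurable, ?_⟩
    rw [hasFiniteIntegral_iff_ofReal (Eventually.of_forall hM0), ← key,
      ← hasFiniteIntegral_iff_ofReal (Eventually.of_forall h0)]
    exact hi.2
  · rw [integral_eq_lintegral_of_nonneg_ae (Eventually.of_forall h0) hi.1, key,
      integral_eq_lintegral_of_nonneg_ae (Eventually.of_forall hM0) hm.aestronglyMeasurable]

lemma lay2 {σ : E3 → ℝ} (h : Adm σ) (hr : Rad σ) :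
    IntegrableOn (fun s => Ms σ s ^ 2 / s ^ 2) (Ioi 0) ∧
      ∫ x, σ x * pot σ x = ∫ s in Ioi (0:ℝ), Ms σ s ^ 2 / s ^ 2 := by
  have hn := nice_of_adm h
  have hMs := Ms_meas h.2.1 h.2.2.1
  have key := layer2 h.1 h.2.1 h.2.2.1
  have hi := TF_E1_int σ σ hn.2.1 hn
  have h0 : ∀ x, 0 ≤ σ x * pot σ x := fun x => mul_nonneg (h.2.1 x) (pot_nonneg h.2.1 x)
  have hM0 : ∀ s, 0 ≤ Ms σ s ^ 2 / s ^ 2 := fun s => by positivity
  have hm : Measurable (fun s => Ms σ s ^ 2 / s ^ 2) := by fun_prop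
  obtain ⟨B, hB⟩ := nice_bound σ hn
  have e : ∫⁻ x, ENNReal.ofReal (σ x * pot σ x)
      = ∫⁻ x, ENNReal.ofReal (σ x) * ∫⁻ y, ENNReal.ofReal (σ y) * ENNReal.ofReal (1 / max ‖x‖ ‖y‖) := by
    refine lintegral_congr_ae ?_
    filter_upwards [ae_ne0] with x hx
    rw [ENNReal.ofReal_mul (h.2.1 x)]
    congr 1
    rw [← newton_l σ h.1 hr x hx]
    unfold pot
    rw [ofReal_integral_eq_lintegral_ofReal (hB x).1
      (Eventually.of_forall (fun y => div_nonneg (h.2.1 y) (norm_nonneg _)))]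
    refine lintegral_congr (fun y => ?_)
    rw [← ENNReal.ofReal_mul (h.2.1 y), mul_one_div]
  constructor
  · refine ⟨hm.aestronglyMeasurable, ?_⟩
    rw [hasFiniteIntegral_iff_ofReal (Eventually.of_forall hM0), ← key, ← e,
      ← hasFiniteIntegral_iff_ofReal (Eventually.of_forall h0)]
    exact hi.2
  · rw [integral_eq_lintegral_of_nonneg_ae (Eventually.of_forall h0) hi.1, e, key,
      integral_eq_lintegral_of_nonneg_ae (Eventually.of_forall hM0) hm.aestronglyMeasurable]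

/-- the functional of a radial density in terms of the mass inside balls -/
lemma AF_rad {σ : E3 → ℝ} (h : Adm σ) (hr : Rad σ) (Z : ℝ) :
    IntegrableOn (fun s => (1/2 * Ms σ s ^ 2 - Z * Ms σ s) / s ^ 2) (Ioi 0) ∧
    AF Z σ = 3/5 * (∫ x, σ x ^ (5/3 : ℝ)) + ∫ s in Ioi (0:ℝ), (1/2 * Ms σ s ^ 2 - Z * Ms σ s) / s ^ 2 := by
  obtain ⟨i1, e1⟩ := lay1 h
  obtain ⟨i2, e2⟩ := lay2 h hr
  have e : (fun s => (1/2 * Ms σ s ^ 2 - Z * Ms σ s) / s ^ 2)
      = fun s => 1/2 * (Ms σ s ^ 2 / s ^ 2) - Z * (Ms σ s / s ^ 2) := by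
    funext s; ring
  rw [e]
  refine ⟨(i2.const_mul _).sub (i1.const_mul _), ?_⟩
  rw [integral_sub (i2.const_mul _) (i1.const_mul _), integral_const_mul, integral_const_mul, ← e1, ← e2]
  unfold AF
  ring

/-- Solutions of the Thomas-Fermi equation of an atom are radial. -/
lemma EL_rad {Z Φ : ℝ} {ρ : E3 → ℝ} (h : ELs (k := 1) (fun _ => Z) (fun _ => 0) Φ ρ) : Rad ρ := by
  intro x y hxy
  set L : E3 ≃ₗᵢ[ℝ] E3 := Submodule.reflection (Submodule.span ℝ {x - y})ᗮ with hL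
  have hLx : L x = y := Submodule.reflection_sub hxy
  have hmp : MeasurePreserving (fun x : E3 => L x) := L.measurePreserving
  have hme : MeasurableEmbedding (fun x : E3 => L x) := L.toHomeomorph.measurableEmbedding
  have hpot : ∀ x, pot (fun y => ρ (L y)) x = pot ρ (L x) := by
    intro x
    unfold pot
    rw [← hmp.integral_comp hme (fun y => ρ y / ‖L x - y‖)]
    refine integral_congr_ae (Eventually.of_forall (fun u => ?_))
    simp only
    rw [← map_sub, L.norm_map]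
  have h2 : ELs (k := 1) (fun _ => Z) (fun _ => 0) Φ (fun y => ρ (L y)) := by
    refine ⟨⟨h.nice.1.comp hmp.measurable, ?_, ?_⟩, fun u => ?_⟩
    · exact (hmp.integrable_comp_emb hme).2 h.nice.2.1
    · exact (hmp.integrable_comp_emb (g := fun x => |ρ x| ^ (5/3 : ℝ)) hme).2 h.nice.2.2
    · rw [hpot, h.eq (L u)]
      congr 3
      unfold VV
      simp
  have h3 := (EL_mono h h2 le_rfl).2 x
  have h4 := (EL_mono h2 h le_rfl).2 x
  simp only [hLx] at h3 h4
  linarith

end Pool.Agent.V5helper98.TF
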