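import Pool.Agent.V5helper98.TF.Atom1

/-!
Cost of confining a neutral Thomas-Fermi atom to a ball.
-/

set_option autoImplicit false
open MeasureTheory Set Filter Topology Metric
open scoped RealInnerProductSpace BigOperators ENNReal
open Pool.Agent.Helper557 Pool.Agent.Helper557.TFP Pool.Agent.H9R2.TF
open Pool.Agent.Results.MP_405077_mp.DilationMonotone

namespace Pool.Agent.V5helper98.TF

/-- the shell `r/2 ≤ |x| < r` -/
def shell (r : ℝ) : Set E3 := ball 0 r \ ball 0 (r / 2)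

lemma shell_meas (r : ℝ) : MeasurableSet (shell r) := measurableSet_ball.diff measurableSet_ball

lemma shell_sub (r : ℝ) : shell r ⊆ ball 0 r := sdiff_subset

lemma shell_fin (r : ℝ) : volume (shell r) ≠ ⊤ :=
  ((measure_mono (shell_sub r)).trans_lt measure_ball_lt_top).ne

/-- the volume of the shell -/
noncomputable def sv (r : ℝ) : ℝ := (volume (shell r)).toReal

lemma ballvol {s : ℝ} (hs : 0 < s) : (volume (ball (0:E3) s)).toReal = 4/3*Real.pi*s^3 := by
  rw [EuclideanSpace.volume_ball_fin_three]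
  rw [← ENNReal.ofReal_pow hs.le, ← ENNReal.ofReal_mul (by positivity), ENNReal.toReal_ofReal (by positivity)]
  ring

lemma sv_ge {r : ℝ} (hr : 0 < r) : r ^ 3 ≤ sv r := by
  unfold sv shell
  rw [measure_sdiff (ball_subset_ball (by linarith)) measurableSet_ball.nullMeasurableSet measure_ball_lt_top.ne,
    ENNReal.toReal_sub_of_le (measure_mono (ball_subset_ball (by linarith))) measure_ball_lt_top.ne,
    ballvol hr, ballvol (half_pos hr)]
  have h3 : 3 < Real.pi := Real.pi_gt_three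
  have : 0 < r ^ 3 := by positivity
  nlinarith

/-- the truncated density: the mass outside `ball 0 r` is replaced by a uniform density of mass `c`
in the shell -/
noncomputable def comp (ρ : E3 → ℝ) (r c : ℝ) (x : E3) : ℝ :=
  (ball (0:E3) r).indicator ρ x + (shell r).indicator (fun _ => c / sv r) x

lemma shell_iff (r : ℝ) (x : E3) : x ∈ shell r ↔ ‖x‖ < r ∧ r / 2 ≤ ‖x‖ := by
  unfold shell
  rw [Set.mem_sdiff, mem_ball_zero_iff, mem_ball_zero_iff, not_lt]

lemma comp_out (ρ : E3 → ℝ) (r c : ℝ) {x : E3} (hx : r ≤ ‖x‖) : comp ρ r c x = 0 := by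
  unfold comp
  rw [indicator_of_notMem (by simpa using hx), indicator_of_notMem, add_zero]
  rw [shell_iff]; intro h; linarith [h.1]

lemma comp_ge (ρ : E3 → ℝ) {r c : ℝ} (hr : 0 < r) (hc : 0 ≤ c) {x : E3} (hx : ‖x‖ < r) : ρ x ≤ comp ρ r c x := by
  unfold comp
  rw [indicator_of_mem (by simpa using hx)]
  have h1 : 0 ≤ c / sv r := div_nonneg hc ((by positivity : (0:ℝ) ≤ r ^ 3).trans (sv_ge hr))
  have : 0 ≤ (shell r).indicator (fun _ => c / sv r) x := indicator_nonneg (fun _ _ => h1) x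
  linarith

lemma comp_rad {ρ : E3 → ℝ} (h : Rad ρ) (r c : ℝ) : Rad (comp ρ r c) := by
  intro x y hxy
  unfold comp
  congr 1
  · by_cases hx : ‖x‖ < r
    · rw [indicator_of_mem (by simpa using hx), indicator_of_mem (by rw [mem_ball_zero_iff, ← hxy]; exact hx)]
      exact h x y hxy
    · rw [indicator_of_notMem (by simpa using hx), indicator_of_notMem]
      rw [mem_ball_zero_iff, ← hxy]; exact hx
  · by_cases hx : x ∈ shell r
    · rw [indicator_of_mem hx, indicator_of_mem]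
      rw [shell_iff] at hx ⊢; rwa [← hxy]
    · rw [indicator_of_notMem hx, indicator_of_notMem]
      rw [shell_iff] at hx ⊢; rwa [← hxy]

lemma int_shell (r b : ℝ) : Integrable ((shell r).indicator (fun _ : E3 => b)) :=
  (integrable_indicator_iff (shell_meas r)).2 (integrableOn_const (shell_fin r))

lemma nice_shell (r b : ℝ) : Nice ((shell r).indicator (fun _ : E3 => b)) := by
  refine ⟨measurable_const.indicator (shell_meas r), int_shell r b, ?_⟩
  refine (int_shell r (|b| ^ (5/3 : ℝ))).congr (Eventually.of_forall (fun x => ?_))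
  simp only
  by_cases h : x ∈ shell r
  · rw [indicator_of_mem h, indicator_of_mem h]
  · rw [indicator_of_notMem h, indicator_of_notMem h, abs_zero, Real.zero_rpow (by norm_num)]

lemma comp_adm {ρ : E3 → ℝ} (h : Adm ρ) {r c : ℝ} (hr : 0 < r) (hc : 0 ≤ c) : Adm (comp ρ r c) := by
  have h1 : 0 ≤ c / sv r := div_nonneg hc ((by positivity : (0:ℝ) ≤ r ^ 3).trans (sv_ge hr))
  refine adm_of_nice (nice_add (nice_ind (nice_of_adm h) measurableSet_ball) (nice_shell r _)) (fun x => ?_)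
  exact add_nonneg (indicator_nonneg (fun x _ => h.2.1 x) x) (indicator_nonneg (fun _ _ => h1) x)

lemma comp_mass {ρ : E3 → ℝ} (h : Adm ρ) {r c : ℝ} (hr : 0 < r) :
    ∫ x, comp ρ r c x = Ms ρ r + c := by
  have hv : 0 < sv r := lt_of_lt_of_le (by positivity) (sv_ge hr)
  unfold comp
  rw [integral_add ((integrable_indicator_iff measurableSet_ball).2 h.2.2.1.integrableOn) (int_shell r _),
    integral_indicator measurableSet_ball, integral_indicator (shell_meas r), setIntegral_const, smul_eq_mul,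
    Measure.real]
  change Ms ρ r + sv r * (c / sv r) = _
  field_simp

/-- the pointwise kinetic inequality -/
lemma kin_pt {ρ b α : ℝ} (hρ : 0 ≤ ρ) (hb : 0 ≤ b) (hα : 0 < α) :
    (ρ + b) ^ (5/3 : ℝ) ≤ ρ ^ (5/3 : ℝ) + 5/3 * b * (1/3 * α ^ 2 + 2/3 * (ρ + b) / α) := by
  have ht : 0 ≤ ρ + b := add_nonneg hρ hb
  have h1 := sc2 (a := ρ) (b := ρ + b) hρ ht
  have h2 : (ρ + b) ^ (2/3 : ℝ) ≤ 1/3 * α ^ 2 + 2/3 * (ρ + b) / α := by
    have hy := Real.young_inequality_of_nonneg (a := ((ρ + b) / α) ^ (2/3 : ℝ)) (b := (α ^ 2) ^ (1/3 : ℝ) )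
      (p := 3/2) (q := 3) (by positivity) (by positivity) (by rw [Real.holderConjugate_iff]; norm_num)
    have e1 : ((ρ + b) / α) ^ (2/3 : ℝ) * (α ^ 2) ^ (1/3 : ℝ) = (ρ + b) ^ (2/3 : ℝ) := by
      rw [Real.div_rpow ht hα.le, ← Real.rpow_natCast α 2, ← Real.rpow_mul hα.le]
      have : 0 < α ^ (2/3 : ℝ) := Real.rpow_pos_of_pos hα _
      norm_num
      field_simp
    have e2 : (((ρ + b) / α) ^ (2/3 : ℝ)) ^ (3/2 : ℝ) = (ρ + b) / α := by
      rw [← Real.rpow_mul (by positivity)]; norm_num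
    have e3 : ((α ^ 2) ^ (1/3 : ℝ)) ^ (3 : ℝ) = α ^ 2 := by
      rw [← Real.rpow_mul (by positivity)]; norm_num
    rw [e1, e2, e3] at hy
    refine hy.trans (le_of_eq ?_)
    ring
  have h3 : ρ + b - ρ = b := by ring
  rw [h3] at h1
  have h4 := mul_le_mul_of_nonneg_right h2 hb
  nlinarith [h1, h4]

lemma int53' {ρ : E3 → ℝ} (h : Adm ρ) : Integrable (fun x => ρ x ^ (5/3 : ℝ)) := h.2.2.2

/-- the kinetic cost of the truncation -/
lemma comp_kin {ρ : E3 → ℝ} (h : Adm ρ) {r c β : ℝ} (hr : 0 < r) (hc : 0 ≤ c) (hβ : 0 < β)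
    (hcβ : c ≤ β ^ 3) (hm : Ms ρ r - Ms ρ (r / 2) ≤ β ^ 3) :
    3/5 * (∫ x, comp ρ r c x ^ (5/3 : ℝ)) ≤ 3/5 * (∫ x, ρ x ^ (5/3 : ℝ)) + 5/3 * β ^ 5 / r ^ 2 := by
  have hr3 : 0 < r ^ 3 := by positivity
  have hv := sv_ge hr
  have hv0 : 0 < sv r := hr3.trans_le hv
  set b := c / sv r with hb
  have hb0 : 0 ≤ b := div_nonneg hc hv0.le
  set α := β / r with hα
  have hα0 : 0 < α := div_pos hβ hr
  -- the pointwise bound
  set G : E3 → ℝ := (shell r).indicator (fun x => 5/3 * b * (1/3 * α ^ 2 + 2/3 * (ρ x + b) / α)) with hG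
  have pt : ∀ x, comp ρ r c x ^ (5/3 : ℝ) ≤ ρ x ^ (5/3 : ℝ) + G x := by
    intro x
    by_cases hx : x ∈ shell r
    · have hxb : x ∈ ball (0:E3) r := shell_sub r hx
      simp only [comp, hG]
      rw [indicator_of_mem hx, indicator_of_mem hx, indicator_of_mem hxb]
      exact kin_pt (h.2.1 x) hb0 hα0
    · simp only [comp, hG]
      rw [indicator_of_notMem hx, indicator_of_notMem hx, add_zero, add_zero]
      by_cases hxb : x ∈ ball (0:E3) r
      · rw [indicator_of_mem hxb]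
      · rw [indicator_of_notMem hxb, Real.zero_rpow (by norm_num)]
        exact Real.rpow_nonneg (h.2.1 x) _
  have hρs : IntegrableOn ρ (shell r) := h.2.2.1.integrableOn
  have hcs : ∀ d : ℝ, IntegrableOn (fun _ : E3 => d) (shell r) := fun d => integrableOn_const (shell_fin r)
  have e1 : (fun x => 5/3 * b * (1/3 * α ^ 2 + 2/3 * (ρ x + b) / α))
      = fun x => (5/3 * b * (2/3) / α) * ρ x + 5/3 * b * (1/3 * α ^ 2 + 2/3 * b / α) := by
    funext x; ring
  have iG : Integrable G := by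
    rw [hG, integrable_indicator_iff (shell_meas r), e1]
    exact (hρs.const_mul _).add (hcs _)
  have ms : ∫ x in shell r, ρ x = Ms ρ r - Ms ρ (r / 2) := by
    unfold shell Ms
    rw [setIntegral_sdiff measurableSet_ball h.2.2.1.integrableOn (ball_subset_ball (by linarith))]
  have iG' : ∫ x, G x = (5/3 * b * (2/3) / α) * (Ms ρ r - Ms ρ (r / 2))
      + sv r * (5/3 * b * (1/3 * α ^ 2 + 2/3 * b / α)) := by
    rw [hG, integral_indicator (shell_meas r), e1, integral_add (hρs.const_mul _) (hcs _), integral_const_mul,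
      ms, setIntegral_const, smul_eq_mul]
    rfl
  have key : ∫ x, comp ρ r c x ^ (5/3 : ℝ) ≤ (∫ x, ρ x ^ (5/3 : ℝ)) + ∫ x, G x := by
    rw [← integral_add h.2.2.2 iG]
    exact integral_mono (comp_adm h hr hc).2.2.2 (h.2.2.2.add iG) pt
  -- the numbers
  have hbv : b * sv r = c := by rw [hb]; field_simp
  have n1 : (5/3 * b * (2/3) / α) * (Ms ρ r - Ms ρ (r / 2)) ≤ (5/3 * b * (2/3) / α) * β ^ 3 :=
    mul_le_mul_of_nonneg_left hm (by positivity)
  have n2 : b * r ^ 3 ≤ β ^ 3 := by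
    calc b * r ^ 3 ≤ b * sv r := mul_le_mul_of_nonneg_left hv hb0
      _ = c := hbv
      _ ≤ β ^ 3 := hcβ
  have hα1 : α * r = β := by rw [hα]; field_simp
  have n3 : ∫ x, G x ≤ 25/9 * β ^ 5 / r ^ 2 := by
    have e2 : sv r * (5/3 * b * (1/3 * α ^ 2 + 2/3 * b / α)) = 5/3 * c * (1/3 * α ^ 2 + 2/3 * b / α) := by
      rw [← hbv]; ring
    rw [iG', e2]
    have m1 : (5/3 * b * (2/3) / α) * β ^ 3 ≤ 10/9 * β ^ 5 / r ^ 2 := by
      have : b / α * β ^ 3 ≤ β ^ 5 / r ^ 2 := by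
        rw [div_mul_eq_mul_div, div_le_div_iff₀ hα0 (by positivity)]
        have h5 : β ^ 5 * α * r = β ^ 5 * β := by rw [mul_assoc, hα1]
        have h6 : b * β ^ 3 * r ^ 2 * r ≤ β ^ 5 * α * r := by
          rw [h5]
          calc b * β ^ 3 * r ^ 2 * r = (b * r ^ 3) * β ^ 3 := by ring
            _ ≤ β ^ 3 * β ^ 3 := mul_le_mul_of_nonneg_right n2 (by positivity)
            _ = β ^ 5 * β := by ring
        exact le_of_mul_le_mul_right h6 hr
      calc (5/3 * b * (2/3) / α) * β ^ 3 = 10/9 * (b / α * β ^ 3) := by ring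
        _ ≤ 10/9 * (β ^ 5 / r ^ 2) := mul_le_mul_of_nonneg_left this (by norm_num)
        _ = _ := by ring
    have m2 : 5/3 * c * (1/3 * α ^ 2 + 2/3 * b / α) ≤ 15/9 * β ^ 5 / r ^ 2 := by
      have k1 : 2/3 * b / α ≤ 2/3 * α ^ 2 := by
        rw [div_le_iff₀ hα0]
        have h6 : b * r ^ 3 ≤ α ^ 3 * r ^ 3 := by rw [← mul_pow, hα1]; exact n2
        have := le_of_mul_le_mul_right h6 hr3
        nlinarith [this]
      have k2 : 1/3 * α ^ 2 + 2/3 * b / α ≤ α ^ 2 := by linarith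
      calc 5/3 * c * (1/3 * α ^ 2 + 2/3 * b / α) ≤ 5/3 * β ^ 3 * α ^ 2 :=
            mul_le_mul (by linarith) k2 (by positivity) (by positivity)
        _ = 15/9 * β ^ 5 / r ^ 2 := by rw [hα]; field_simp; ring
    have : 25/9 * β ^ 5 / r ^ 2 = 10/9 * β ^ 5 / r ^ 2 + 15/9 * β ^ 5 / r ^ 2 := by ring
    linarith
  have : 5/3 * β ^ 5 / r ^ 2 = 3/5 * (25/9 * β ^ 5 / r ^ 2) := by ring
  linarith

end Pool.Agent.V5helper98.TF
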