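import Pool.Agent.V5helper98.TF.Atom2

/-!
Decay of the outer charge of the Thomas-Fermi atom and the cost of confinement, `O(l⁻⁷)`.
-/

set_option autoImplicit false
open MeasureTheory Set Filter Topology Metric
open scoped RealInnerProductSpace BigOperators ENNReal
open Pool.Agent.Helper557 Pool.Agent.Helper557.TFP Pool.Agent.H9R2.TF
open Pool.Agent.Results.MP_405077_mp.DilationMonotone

namespace Pool.Agent.V5helper98.TF

lemma Ms_comp_le {ρ : E3 → ℝ} (h : Adm ρ) {r c : ℝ} (hr : 0 < r) (hc : 0 ≤ c) (s : ℝ) :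
    Ms (comp ρ r c) s ≤ Ms ρ r + c := by
  rw [← comp_mass h hr]
  exact Ms_le (comp_adm h hr hc).2.1 (comp_adm h hr hc).2.2.1 s

lemma Ms_comp_ge {ρ : E3 → ℝ} (h : Adm ρ) {r c : ℝ} (hr : 0 < r) (hc : 0 ≤ c) {s : ℝ} (hs : s ≤ r) :
    Ms ρ s ≤ Ms (comp ρ r c) s := by
  unfold Ms
  refine setIntegral_mono_on h.2.2.1.integrableOn (comp_adm h hr hc).2.2.1.integrableOn measurableSet_ball ?_
  intro x hx
  exact comp_ge ρ hr hc ((mem_ball_zero_iff.1 hx).trans_le hs)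

lemma Ms_comp_eq {ρ : E3 → ℝ} (h : Adm ρ) {r c : ℝ} (hr : 0 < r) {s : ℝ} (hs : r ≤ s) :
    Ms (comp ρ r c) s = Ms ρ r + c := by
  rw [← comp_mass h hr]
  unfold Ms
  refine setIntegral_eq_integral_of_forall_compl_eq_zero (fun x hx => ?_)
  rw [mem_ball_zero_iff, not_lt] at hx
  exact comp_out ρ r c (hs.trans hx)

/-- the gain of electrostatic energy -/
lemma gain {ρ : E3 → ℝ} (h : Adm ρ) (hrad : Rad ρ) {Z r c : ℝ} (hr : 0 < r) (hc : 0 ≤ c)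
    (hZ : Ms ρ r + c = Z) :
    (∫ s in Ioi (0:ℝ), (1/2 * Ms (comp ρ r c) s ^ 2 - Z * Ms (comp ρ r c) s) / s ^ 2)
      ≤ (∫ s in Ioi (0:ℝ), (1/2 * Ms ρ s ^ 2 - Z * Ms ρ s) / s ^ 2) ∧
    (0 ≤ Z - Ms ρ (2 * r) →
      (∫ s in Ioi (0:ℝ), (1/2 * Ms (comp ρ r c) s ^ 2 - Z * Ms (comp ρ r c) s) / s ^ 2)
      + (Z - Ms ρ (2 * r)) ^ 2 / (8 * r)
      ≤ ∫ s in Ioi (0:ℝ), (1/2 * Ms ρ s ^ 2 - Z * Ms ρ s) / s ^ 2) := by
  have hcA := comp_adm h hr hc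
  have hcR := comp_rad hrad r c
  obtain ⟨i1, _⟩ := AF_rad h hrad Z
  obtain ⟨i2, _⟩ := AF_rad hcA hcR Z
  have pt : ∀ s, (1/2 * Ms (comp ρ r c) s ^ 2 - Z * Ms (comp ρ r c) s) / s ^ 2
      ≤ (1/2 * Ms ρ s ^ 2 - Z * Ms ρ s) / s ^ 2 := by
    intro s
    refine div_le_div_of_nonneg_right ?_ (by positivity)
    rcases le_total s r with hs | hs
    · have h1 := Ms_comp_ge h hr hc hs
      have h2 := Ms_comp_le h hr hc s
      rw [hZ] at h2
      nlinarith [mul_nonneg (sub_nonneg.2 h1) (sub_nonneg.2 h2), mul_nonneg (sub_nonneg.2 h1) (sub_nonneg.2 h1)]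
    · have h1 := Ms_comp_eq (c := c) h hr hs
      rw [hZ] at h1
      rw [h1]
      nlinarith [sq_nonneg (Z - Ms ρ s)]
  refine ⟨integral_mono i2 i1 pt, fun h2 => ?_⟩
  have hsub : Ioc r (2 * r) ⊆ Ioi (0:ℝ) := fun s hs => hr.trans hs.1
  set q := Z - Ms ρ (2 * r) with hq
  -- lower bound of the difference on the annulus
  set D : ℝ → ℝ := fun s => (1/2 * Ms ρ s ^ 2 - Z * Ms ρ s) / s ^ 2
      - (1/2 * Ms (comp ρ r c) s ^ 2 - Z * Ms (comp ρ r c) s) / s ^ 2 with hD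
  have iD : IntegrableOn D (Ioi 0) := i1.sub i2
  have D0 : ∀ s, 0 ≤ D s := fun s => sub_nonneg.2 (pt s)
  have D1 : ∀ s ∈ Ioc r (2 * r), q ^ 2 / (8 * r ^ 2) ≤ D s := by
    intro s hs
    have hs0 : 0 < s := hr.trans hs.1
    have h1 := Ms_comp_eq (c := c) h hr hs.1.le
    rw [hZ] at h1
    have h3 : D s = 1/2 * (Z - Ms ρ s) ^ 2 / s ^ 2 := by
      simp only [hD]; rw [h1]; field_simp; ring
    have h4 : Ms ρ s ≤ Ms ρ (2 * r) := Ms_mono h.2.1 h.2.2.1 hs.2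
    have h5 : q ^ 2 ≤ (Z - Ms ρ s) ^ 2 := pow_le_pow_left₀ h2 (by linarith) 2
    rw [h3, div_le_div_iff₀ (by positivity) (by positivity)]
    have h6 : s ^ 2 ≤ (2 * r) ^ 2 := pow_le_pow_left₀ hs0.le hs.2 2
    calc q ^ 2 * s ^ 2 ≤ (Z - Ms ρ s) ^ 2 * (2 * r) ^ 2 := mul_le_mul h5 h6 (by positivity) (by positivity)
      _ = _ := by ring
  have key : q ^ 2 / (8 * r) ≤ ∫ s in Ioi (0:ℝ), D s := by
    calc q ^ 2 / (8 * r) = ∫ _ in Ioc r (2 * r), q ^ 2 / (8 * r ^ 2) := by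
          rw [setIntegral_const, Real.volume_real_Ioc_of_le (by linarith), smul_eq_mul]
          field_simp
          ring
      _ ≤ ∫ s in Ioc r (2 * r), D s :=
          setIntegral_mono_on (integrableOn_const measure_Ioc_lt_top.ne) (iD.mono_set hsub) measurableSet_Ioc D1
      _ ≤ ∫ s in Ioi (0:ℝ), D s :=
          setIntegral_mono_set iD (Eventually.of_forall D0) (LE.le.eventuallyLE hsub)
  have : ∫ s in Ioi (0:ℝ), D s = (∫ s in Ioi (0:ℝ), (1/2 * Ms ρ s ^ 2 - Z * Ms ρ s) / s ^ 2)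
      - ∫ s in Ioi (0:ℝ), (1/2 * Ms (comp ρ r c) s ^ 2 - Z * Ms (comp ρ r c) s) / s ^ 2 := integral_sub i1 i2
  linarith

/-- `AF` of the truncated density -/
lemma AF_comp {ρ : E3 → ℝ} (h : Adm ρ) (hrad : Rad ρ) {Z r c β : ℝ} (hr : 0 < r) (hc : 0 ≤ c)
    (hZ : Ms ρ r + c = Z) (hβ : 0 < β) (hq : Z - Ms ρ (r / 2) ≤ β ^ 3) :
    AF Z (comp ρ r c) ≤ AF Z ρ + 5/3 * β ^ 5 / r ^ 2 ∧
    (0 ≤ Z - Ms ρ (2 * r) →
      AF Z (comp ρ r c) + (Z - Ms ρ (2 * r)) ^ 2 / (8 * r) ≤ AF Z ρ + 5/3 * β ^ 5 / r ^ 2) := by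
  obtain ⟨g1, g2⟩ := gain h hrad hr hc hZ
  obtain ⟨_, e1⟩ := AF_rad h hrad Z
  obtain ⟨_, e2⟩ := AF_rad (comp_adm h hr hc) (comp_rad hrad r c) Z
  have hmono := Ms_mono h.2.1 h.2.2.1 (show r / 2 ≤ r by linarith)
  have k := comp_kin h hr hc hβ (c := c) (by linarith) (by linarith)
  constructor
  · rw [e1, e2]; linarith
  · intro h2
    have := g2 h2
    rw [e1, e2]; linarith

/-- main step for a solution of the Thomas-Fermi equation -/
lemma EL_step {Z Φ : ℝ} (hZ : 0 ≤ Z) (hΦ : 0 < Φ) {ρ : E3 → ℝ}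
    (hρ : ELs (k := 1) (fun _ => Z) (fun _ => 0) Φ ρ) {r β : ℝ} (hr : 0 < r) (hc : 0 ≤ Z - Ms ρ r)
    (hβ : 0 < β) (hq : Z - Ms ρ (r / 2) ≤ β ^ 3) :
    (∀ σ, Adm σ → ∫ x, σ x = Z → AF Z (comp ρ r (Z - Ms ρ r)) ≤ AF Z σ + Φ * Z + 5/3 * β ^ 5 / r ^ 2) ∧
    (0 ≤ Z - Ms ρ (2 * r) → (Z - Ms ρ (2 * r)) ^ 2 / (8 * r) ≤ Φ * Z + 5/3 * β ^ 5 / r ^ 2) := by
  have hA := adm_of_nice hρ.nice hρ.nonneg
  have hrad := EL_rad hρ
  obtain ⟨a1, a2⟩ := AF_comp hA hrad hr hc (Z := Z) (by ring) hβ hq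
  have hl : 0 ≤ Φ * ∫ x, ρ x := mul_nonneg hΦ.le (integral_nonneg hρ.nonneg)
  constructor
  · intro σ hσ hm
    have h1 := EL_min hρ hσ
    rw [AF_eq, AF_eq, hm] at h1
    linarith
  · intro h2
    have h1 := EL_min hρ (comp_adm hA hr hc)
    rw [AF_eq, AF_eq, comp_mass hA hr] at h1
    have h3 := a2 h2
    have e : Ms ρ r + (Z - Ms ρ r) = Z := by ring
    rw [e] at h1
    linarith

/-- the constant -/
def YY : ℝ := 32768

/-- decay of the outer charge -/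
lemma decay {Z Φ l : ℝ} (hZ : 0 < Z) (hΦ : 0 < Φ) (hl : 0 < l) (hsm : 16 * l ^ 7 * (Φ * Z) ≤ 1)
    {ρ : E3 → ℝ} (hρ : ELs (k := 1) (fun _ => Z) (fun _ => 0) Φ ρ) {s : ℝ} (hs : 0 < s) (hsl : s ≤ l)
    (hq : 0 ≤ Z - Ms ρ s) : Z - Ms ρ s ≤ (YY / s) ^ 3 := by
  have hA := adm_of_nice hρ.nice hρ.nonneg
  have hY : (0:ℝ) < YY := by unfold YY; norm_num
  -- a small radius
  obtain ⟨s0, hs0, hs1⟩ : ∃ s0 : ℝ, 0 < s0 ∧ Z ≤ (YY / s0) ^ 3 := by
    refine ⟨YY / (Z + 1), by positivity, ?_⟩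
    have : YY / (YY / (Z + 1)) = Z + 1 := by field_simp
    rw [this]
    nlinarith [pow_pos hZ 2, pow_pos hZ 3]
  have main : ∀ n : ℕ, ∀ s : ℝ, 0 < s → s ≤ l → s ≤ 4 ^ n * s0 → 0 ≤ Z - Ms ρ s → Z - Ms ρ s ≤ (YY / s) ^ 3 := by
    intro n
    induction n with
    | zero =>
      intro s hs _ h0 _
      rw [pow_zero, one_mul] at h0
      have h1 : (YY / s0) ^ 3 ≤ (YY / s) ^ 3 :=
        pow_le_pow_left₀ (by positivity) (div_le_div_of_nonneg_left hY.le hs h0) 3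
      have := Ms_nonneg hA.2.1 s
      linarith
    | succ n ih =>
      intro s hs hsl h0 hq
      have hA' := Ms_mono hA.2.1 hA.2.2.1
      have q4 : 0 ≤ Z - Ms ρ (s / 4) := by
        have := hA' (show s / 4 ≤ s by linarith)
        linarith
      have q2 : 0 ≤ Z - Ms ρ (s / 2) := by
        have := hA' (show s / 2 ≤ s by linarith)
        linarith
      have h1 := ih (s / 4) (by positivity) (by linarith) (by rw [pow_succ] at h0; linarith) q4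
      have hβ : 0 < YY / (s / 4) := by positivity
      have h2 := (EL_step hZ.le hΦ hρ (r := s / 2) (by positivity) q2 hβ
        (by rw [show s / 2 / 2 = s / 4 by ring]; exact h1)).2
        (by rw [show 2 * (s / 2) = s by ring]; exact hq)
      rw [show 2 * (s / 2) = s by ring] at h2
      -- (Z - M)^2 ≤ 4 s (...)
      have h3 : (Z - Ms ρ s) ^ 2 ≤ 4 * s * (Φ * Z) + 80/3 * (4 * YY) ^ 5 / s ^ 6 := by
        rw [div_le_iff₀ (by positivity)] at h2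
        refine h2.trans (le_of_eq ?_)
        field_simp
        ring
      have h4 : 4 * s * (Φ * Z) ≤ 1 / (4 * s ^ 6) := by
        rw [le_div_iff₀ (by positivity)]
        have h5 : s ^ 7 ≤ l ^ 7 := pow_le_pow_left₀ hs.le hsl 7
        have h6 : 0 ≤ Φ * Z := by positivity
        nlinarith [mul_le_mul_of_nonneg_right h5 h6]
      have h5 : (Z - Ms ρ s) ^ 2 ≤ ((YY / s) ^ 3) ^ 2 := by
        refine h3.trans ?_
        have e1 : ((YY / s) ^ 3) ^ 2 = YY ^ 6 / s ^ 6 := by field_simp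
        have e2 : 1 / (4 * s ^ 6) = (1/4) / s ^ 6 := by field_simp
        rw [e1]
        rw [e2] at h4
        have e3 : (1/4) / s ^ 6 + 80/3 * (4 * YY) ^ 5 / s ^ 6 ≤ YY ^ 6 / s ^ 6 := by
          rw [← add_div]
          refine div_le_div_of_nonneg_right ?_ (by positivity)
          unfold YY; norm_num
        linarith
      exact abs_le_of_sq_le_sq' h5 (by positivity) |>.2
  obtain ⟨n, hn⟩ := pow_unbounded_of_one_lt (s / s0) (by norm_num : (1:ℝ) < 4)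
  refine main n s hs hsl ?_ hq
  rw [div_lt_iff₀ hs0] at hn
  exact hn.le

end Pool.Agent.V5helper98.TF
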