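import Pool.Agent.V5helper98.TF.Atom3

/-!
Existence of well-confined neutral atomic densities.
-/

set_option autoImplicit false
open MeasureTheory Set Filter Topology Metric
open scoped RealInnerProductSpace BigOperators ENNReal
open Pool.Agent.Helper557 Pool.Agent.Helper557.TFP Pool.Agent.H9R2.TF
open Pool.Agent.Results.MP_405077_mp.DilationMonotone

namespace Pool.Agent.V5helper98.TF

lemma Ms_cont {ρ : E3 → ℝ} (h : Adm ρ) : Continuous (Ms ρ) := by
  rw [continuous_iff_continuousAt]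
  intro r0
  have e : ∀ r, Ms ρ r = ∫ x, (ball (0:E3) r).indicator ρ x := fun r =>
    (integral_indicator measurableSet_ball).symm
  have : Ms ρ = fun r => ∫ x, (ball (0:E3) r).indicator ρ x := funext e
  rw [this]
  refine continuousAt_of_dominated (bound := ρ) (Eventually.of_forall (fun r =>
    (h.1.indicator measurableSet_ball).aestronglyMeasurable)) (Eventually.of_forall (fun r =>
    Eventually.of_forall (fun x => ?_))) h.2.2.1 ?_
  · rw [Real.norm_of_nonneg (indicator_nonneg (fun x _ => h.2.1 x) x)]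
    exact indicator_le_self' (fun x _ => h.2.1 x) x
  · have hnull : volume (sphere (0:E3) r0) = 0 := Measure.addHaar_sphere volume 0 r0
    have := measure_eq_zero_iff_ae_notMem.1 hnull
    filter_upwards [this] with x hx
    rw [mem_sphere_zero_iff_norm] at hx
    rcases lt_or_gt_of_ne hx with h1 | h1
    · -- inside
      refine ContinuousAt.congr (f := fun _ => ρ x) continuousAt_const ?_
      filter_upwards [Ioi_mem_nhds h1] with r hr
      rw [indicator_of_mem (mem_ball_zero_iff.2 hr)]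
    · refine ContinuousAt.congr (f := fun _ => (0:ℝ)) continuousAt_const ?_
      filter_upwards [Iio_mem_nhds h1] with r hr
      rw [indicator_of_notMem]
      rw [mem_ball_zero_iff, not_lt]
      exact (mem_Iio.1 hr).le

lemma Ms_zero (ρ : E3 → ℝ) : Ms ρ 0 = 0 := by
  unfold Ms
  rw [ball_zero, setIntegral_empty]

lemma AF_cut {ρ : E3 → ℝ} (h : Adm ρ) (hrad : Rad ρ) {Z r : ℝ} (hr : 0 < r) (hZ : Ms ρ r = Z) :
    AF Z (comp ρ r 0) ≤ AF Z ρ := by
  obtain ⟨g1, _⟩ := gain h hrad (Z := Z) (c := 0) hr le_rfl (by rw [add_zero]; exact hZ)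
  obtain ⟨_, e1⟩ := AF_rad h hrad Z
  obtain ⟨_, e2⟩ := AF_rad (comp_adm h hr le_rfl) (comp_rad hrad r 0) Z
  have k : ∫ x, comp ρ r 0 x ^ (5/3 : ℝ) ≤ ∫ x, ρ x ^ (5/3 : ℝ) := by
    refine integral_mono (comp_adm h hr le_rfl).2.2.2 h.2.2.2 (fun x => ?_)
    refine Real.rpow_le_rpow ((comp_adm h hr le_rfl).2.1 x) ?_ (by norm_num)
    unfold comp
    rw [zero_div]
    have : (shell r).indicator (fun _ => (0:ℝ)) x = 0 := by
      rw [indicator_zero]
    rw [this, add_zero]
    exact indicator_le_self' (fun x _ => h.2.1 x) x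
  rw [e1, e2]
  linarith

/-- the constant of the confinement bound -/
noncomputable def CC : ℝ := 5/3 * (2 * YY) ^ 5

lemma CC_pos : 0 < CC := by unfold CC YY; norm_num

/-- **Confinement.** For every charge `Z > 0` and radius `l > 0` there is a neutral radial density
supported in the ball of radius `l` whose energy exceeds the atomic energy by at most `C l⁻⁷`. -/
theorem confine {Z l ε : ℝ} (hZ : 0 < Z) (hl : 0 < l) (hε : 0 < ε) :
    ∃ τ : E3 → ℝ, Adm τ ∧ Rad τ ∧ (∀ x, l ≤ ‖x‖ → τ x = 0) ∧ ∫ x, τ x = Z ∧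
      ∀ σ, Adm σ → ∫ x, σ x = Z → AF Z τ ≤ AF Z σ + CC / l ^ 7 + ε := by
  set Φ : ℝ := min (ε / Z) (1 / (16 * l ^ 7 * Z)) with hΦdef
  have hΦ : 0 < Φ := lt_min (by positivity) (by positivity)
  have h1 : Φ * Z ≤ ε := by
    have : Φ ≤ ε / Z := min_le_left _ _
    rwa [le_div_iff₀ hZ] at this
  have h2 : 16 * l ^ 7 * (Φ * Z) ≤ 1 := by
    have : Φ ≤ 1 / (16 * l ^ 7 * Z) := min_le_right _ _
    rw [le_div_iff₀ (by positivity)] at this
    linarith
  obtain ⟨ρ, hρ⟩ := exists_ELs (k := 1) (z := fun _ => Z) (R := fun _ => 0) (fun _ => hZ.le) hΦ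
  have hA := adm_of_nice hρ.nice hρ.nonneg
  have hrad := EL_rad hρ
  have hCC : 0 ≤ CC / l ^ 7 := div_nonneg CC_pos.le (by positivity)
  rcases le_or_gt Z (Ms ρ l) with hM | hM
  · -- the charge is exhausted inside the ball
    obtain ⟨r0, hr0, hr1⟩ : ∃ r0 ∈ Icc 0 l, Ms ρ r0 = Z := by
      have := intermediate_value_Icc hl.le (Ms_cont hA).continuousOn
      exact this ⟨by rw [Ms_zero]; exact hZ.le, hM⟩
    have hr00 : 0 < r0 := by
      rcases eq_or_lt_of_le hr0.1 with h | h
      · rw [← h, Ms_zero] at hr1; exact absurd hr1 hZ.ne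
      · exact h
    refine ⟨comp ρ r0 0, comp_adm hA hr00 le_rfl, comp_rad hrad r0 0, fun x hx =>
      comp_out ρ r0 0 (hr0.2.trans hx), by rw [comp_mass hA hr00, add_zero, hr1], fun σ hσ hm => ?_⟩
    have h3 := AF_cut hA hrad hr00 hr1
    have h4 := EL_min hρ hσ
    rw [AF_eq, AF_eq, hm] at h4
    have hl0 : 0 ≤ Φ * ∫ x, ρ x := mul_nonneg hΦ.le (integral_nonneg hρ.nonneg)
    linarith
  · have hc : 0 ≤ Z - Ms ρ l := by linarith
    have hc2 : 0 ≤ Z - Ms ρ (l / 2) := by
      have := Ms_mono hA.2.1 hA.2.2.1 (show l / 2 ≤ l by linarith)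
      linarith
    have hd := decay hZ hΦ hl h2 hρ (s := l / 2) (by positivity) (by linarith) hc2
    have hβ : 0 < YY / (l / 2) := by unfold YY; positivity
    obtain ⟨s1, _⟩ := EL_step hZ.le hΦ hρ hl hc hβ hd
    refine ⟨comp ρ l (Z - Ms ρ l), comp_adm hA hl hc, comp_rad hrad l _, fun x hx => comp_out ρ l _ hx,
      by rw [comp_mass hA hl]; ring, fun σ hσ hm => ?_⟩
    have h3 := s1 σ hσ hm
    have e : 5/3 * (YY / (l / 2)) ^ 5 / l ^ 2 = CC / l ^ 7 := by
      unfold CC; field_simp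
    rw [e] at h3
    linarith

end Pool.Agent.V5helper98.TF
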