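import Pool.Agent.V5helper98.TF.Atom4

/-!
Two confined neutral atoms do not interact; upper and lower bounds for the energy of two equal
nuclei.
-/

set_option autoImplicit false
open MeasureTheory Set Filter Topology Metric
open scoped RealInnerProductSpace BigOperators ENNReal
open Pool.Agent.Helper557 Pool.Agent.Helper557.TFP Pool.Agent.H9R2.TF
open Pool.Agent.Results.MP_405077_mp.DilationMonotone

namespace Pool.Agent.V5helper98.TF

/-- outside its support a radial density acts as a point charge -/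
lemma pot_out {τ : E3 → ℝ} (h : Adm τ) (hr : Rad τ) {l : ℝ} (hs : ∀ x, l ≤ ‖x‖ → τ x = 0)
    {x : E3} (hx0 : x ≠ 0) (hx : l ≤ ‖x‖) : pot τ x = (∫ y, τ y) / ‖x‖ := by
  rw [newton_pot h.1 h.2.1 hr x hx0, ← integral_div]
  refine integral_congr_ae (Eventually.of_forall (fun y => ?_))
  simp only
  rcases le_total ‖y‖ ‖x‖ with hy | hy
  · rw [max_eq_left hy]
  · rw [hs y (hx.trans hy), zero_div, zero_div]

lemma adm_shift {τ : E3 → ℝ} (h : Adm τ) (a : E3) : Adm (fun x => τ (x - a)) :=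
  adm_of_nice (nice_shift (nice_of_adm h) a) (fun x => h.2.1 _)

lemma pot_shift (τ : E3 → ℝ) (a x : E3) : pot (fun y => τ (y - a)) x = pot τ (x - a) := by
  unfold pot
  rw [← integral_sub_right_eq_self (fun y => τ y / ‖x - a - y‖) a]
  refine integral_congr_ae (Eventually.of_forall (fun y => ?_))
  simp only
  congr 2
  abel

/-- two copies of a confined neutral density -/
noncomputable def two (τ : E3 → ℝ) (a b : E3) (x : E3) : ℝ := τ (x - a) + τ (x - b)

lemma two_adm {τ : E3 → ℝ} (h : Adm τ) (a b : E3) : Adm (two τ a b) :=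
  adm_of_nice (nice_add (nice_of_adm (adm_shift h a)) (nice_of_adm (adm_shift h b)))
    (fun _ => add_nonneg (h.2.1 _) (h.2.1 _))

lemma two_mass {τ : E3 → ℝ} (h : Adm τ) (a b : E3) : ∫ x, two τ a b x = 2 * ∫ x, τ x := by
  unfold two
  rw [integral_add (adm_shift h a).2.2.1 (adm_shift h b).2.2.1, integral_sub_right_eq_self,
    integral_sub_right_eq_self]
  ring

/-- the cross terms -/
lemma cross {τ : E3 → ℝ} (h : Adm τ) (hr : Rad τ) {l : ℝ} (hs : ∀ x, l ≤ ‖x‖ → τ x = 0)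
    {a b : E3} (hl : 0 < l) (hab : 2 * l ≤ ‖a - b‖) :
    (∫ x, τ (x - a) / ‖x - b‖ = (∫ x, τ x) / ‖a - b‖) ∧
    (∫ x, τ (x - a) * pot (fun y => τ (y - b)) x = (∫ x, τ x) ^ 2 / ‖a - b‖) := by
  have hne : b - a ≠ 0 := by
    intro h0
    rw [← norm_neg, neg_sub, h0, norm_zero] at hab
    linarith
  have e1 : ∫ x, τ (x - a) / ‖x - b‖ = (∫ x, τ x) / ‖a - b‖ := by
    have h1 : ∫ x, τ (x - a) / ‖x - b‖ = pot τ (b - a) := by
      unfold pot
      rw [← integral_sub_right_eq_self (fun y => τ y / ‖b - a - y‖) a]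
      refine integral_congr_ae (Eventually.of_forall (fun x => ?_))
      simp only
      rw [norm_sub_rev x b]
      congr 2
      abel
    rw [h1, pot_out h hr hs hne (by rw [norm_sub_rev]; linarith), norm_sub_rev]
  refine ⟨e1, ?_⟩
  have e2 : ∀ x, τ (x - a) * pot (fun y => τ (y - b)) x = (∫ x, τ x) * (τ (x - a) / ‖x - b‖) := by
    intro x
    by_cases hx : l ≤ ‖x - a‖
    · rw [hs _ hx]; ring
    · push Not at hx
      have h1 : l ≤ ‖x - b‖ := by
        have : ‖a - b‖ ≤ ‖x - a‖ + ‖x - b‖ := by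
          calc ‖a - b‖ = ‖(x - b) - (x - a)‖ := by congr 1; abel
            _ ≤ ‖x - b‖ + ‖x - a‖ := norm_sub_le _ _
            _ = _ := add_comm _ _
        linarith
      have h2 : x - b ≠ 0 := by
        intro h0; rw [h0, norm_zero] at h1; linarith
      rw [pot_shift, pot_out h hr hs h2 h1]
      ring
  simp_rw [e2]
  rw [integral_const_mul, e1]
  ring

/-- energy of two confined neutral atoms of charge `Z`, with the nuclear repulsion: no interaction -/
lemma two_energy {τ : E3 → ℝ} (h : Adm τ) (hr : Rad τ) {l Z : ℝ} (hs : ∀ x, l ≤ ‖x‖ → τ x = 0)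
    {a b : E3} (hl : 0 < l) (hab : 2 * l ≤ ‖a - b‖) (hZ : ∫ x, τ x = Z) :
    3/5 * (∫ x, two τ a b x ^ (5/3 : ℝ)) - (∫ x, (Z / ‖x - a‖ + Z / ‖x - b‖) * two τ a b x)
      + 1/2 * (∫ x, two τ a b x * pot (two τ a b) x) + Z ^ 2 / ‖a - b‖ = 2 * AF Z τ := by
  have hA := adm_shift h a
  have hB := adm_shift h b
  have nA := nice_of_adm hA
  have nB := nice_of_adm hB
  -- kinetic
  have k1 : ∫ x, two τ a b x ^ (5/3 : ℝ) = 2 * ∫ x, τ x ^ (5/3 : ℝ) := by
    have e : (fun x => two τ a b x ^ (5/3 : ℝ)) = fun x => τ (x - a) ^ (5/3 : ℝ) + τ (x - b) ^ (5/3 : ℝ) := by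
      funext x
      unfold two
      by_cases hx : l ≤ ‖x - a‖
      · rw [hs _ hx, zero_add, Real.zero_rpow (by norm_num), zero_add]
      · push Not at hx
        have h1 : l ≤ ‖x - b‖ := by
          have : ‖a - b‖ ≤ ‖x - a‖ + ‖x - b‖ := by
            calc ‖a - b‖ = ‖(x - b) - (x - a)‖ := by congr 1; abel
              _ ≤ ‖x - b‖ + ‖x - a‖ := norm_sub_le _ _
              _ = _ := add_comm _ _
          linarith
        rw [hs _ h1, add_zero, Real.zero_rpow (by norm_num), add_zero]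
    rw [e, integral_add hA.2.2.2 hB.2.2.2, integral_sub_right_eq_self (fun x => τ x ^ (5/3 : ℝ)),
      integral_sub_right_eq_self (fun x => τ x ^ (5/3 : ℝ))]
    ring
  -- nuclear attraction
  have self : ∀ c : E3, ∫ x, τ (x - c) / ‖x - c‖ = ∫ x, τ x / ‖x‖ := fun c =>
    integral_sub_right_eq_self (fun x => τ x / ‖x‖) c
  have c1 := cross h hr hs hl hab
  have hab' : 2 * l ≤ ‖b - a‖ := by rw [norm_sub_rev]; exact hab
  have c2 := cross h hr hs hl hab'
  have i : ∀ c d : E3, Integrable (fun x => τ (x - c) / ‖x - d‖) := fun c d =>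
    TF_E2_int _ (nice_of_adm (adm_shift h c)) d
  have k2 : ∫ x, (Z / ‖x - a‖ + Z / ‖x - b‖) * two τ a b x = 2 * (Z * ∫ x, τ x / ‖x‖) + 2 * (Z ^ 2 / ‖a - b‖) := by
    have e : (fun x => (Z / ‖x - a‖ + Z / ‖x - b‖) * two τ a b x)
        = fun x => Z * (τ (x - a) / ‖x - a‖ + τ (x - b) / ‖x - b‖ + (τ (x - a) / ‖x - b‖ + τ (x - b) / ‖x - a‖)) := by
      funext x; unfold two; ring
    have j1 : Integrable (fun x => τ (x - a) / ‖x - a‖ + τ (x - b) / ‖x - b‖) := (i a a).add (i b b)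
    have j2 : Integrable (fun x => τ (x - a) / ‖x - b‖ + τ (x - b) / ‖x - a‖) := (i a b).add (i b a)
    rw [e, integral_const_mul, integral_add j1 j2, integral_add (i a a) (i b b),
      integral_add (i a b) (i b a), self, self, c1.1, c2.1, norm_sub_rev b a, hZ]
    ring
  -- Coulomb
  have p : ∀ c d : E3, Integrable (fun x => τ (x - c) * pot (fun y => τ (y - d)) x) := fun c d =>
    TF_E1_int _ _ (adm_shift h c).2.2.1 (nice_of_adm (adm_shift h d))
  have selfp : ∀ c : E3, ∫ x, τ (x - c) * pot (fun y => τ (y - c)) x = ∫ x, τ x * pot τ x := by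
    intro c
    simp_rw [pot_shift]
    exact integral_sub_right_eq_self (fun x => τ x * pot τ x) c
  have k3 : ∫ x, two τ a b x * pot (two τ a b) x = 2 * (∫ x, τ x * pot τ x) + 2 * (Z ^ 2 / ‖a - b‖) := by
    have e : (fun x => two τ a b x * pot (two τ a b) x)
        = fun x => (τ (x - a) * pot (fun y => τ (y - a)) x + τ (x - b) * pot (fun y => τ (y - b)) x)
          + (τ (x - a) * pot (fun y => τ (y - b)) x + τ (x - b) * pot (fun y => τ (y - a)) x) := by
      funext x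
      have : pot (two τ a b) x = pot (fun y => τ (y - a)) x + pot (fun y => τ (y - b)) x := pot_add nA nB x
      rw [this]
      unfold two
      ring
    have j1 : Integrable (fun x => τ (x - a) * pot (fun y => τ (y - a)) x + τ (x - b) * pot (fun y => τ (y - b)) x) :=
      (p a a).add (p b b)
    have j2 : Integrable (fun x => τ (x - a) * pot (fun y => τ (y - b)) x + τ (x - b) * pot (fun y => τ (y - a)) x) :=
      (p a b).add (p b a)
    rw [e, integral_add j1 j2, integral_add (p a a) (p b b),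
      integral_add (p a b) (p b a), selfp, selfp, c1.2, c2.2, norm_sub_rev b a, hZ]
    ring
  rw [k1, k2, k3]
  unfold AF
  ring

/-- lower bound for the energy of two nuclei of small charge -/
lemma low {D : ℝ} (hD : 0 < D) : ∃ K : ℝ, 0 ≤ K ∧ ∀ (a b : E3) (t : ℝ), 0 ≤ t → ∀ ρ, Adm ρ → ∫ x, ρ x = 2 * t →
    -(t ^ 2 / (2 * D)) - K * t ^ (5/2 : ℝ) ≤
      3/5 * (∫ x, ρ x ^ (5/3 : ℝ)) - (∫ x, (t / ‖x - a‖ + t / ‖x - b‖) * ρ x) + 1/2 * (∫ x, ρ x * pot ρ x) := by
  set J : E3 → ℝ := (ball (0 : E3) (8 * D)).indicator (fun u => ‖u‖ ^ (-(5/2) : ℝ)) with hJ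
  have hJi : Integrable J := (integrable_indicator_iff measurableSet_ball).2 (int52 _)
  have hJ0 : ∀ u, 0 ≤ J u := fun u => indicator_nonneg (fun u _ => Real.rpow_nonneg (norm_nonneg _) _) u
  set κ : ℝ := 2/5 * (1/2 : ℝ) ^ (-(3/2) : ℝ) with hκ
  have hκ0 : 0 ≤ κ := by positivity
  have hJI : 0 ≤ ∫ u, J u := integral_nonneg hJ0
  refine ⟨2 * (κ * ∫ u, J u), by positivity, ?_⟩
  intro a b t ht ρ hρ hm
  have pt : ∀ (c x : E3), t / ‖x - c‖ * ρ x ≤ t / (8 * D) * ρ x + 3/10 * ρ x ^ (5/3 : ℝ)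
      + κ * t ^ (5/2 : ℝ) * J (x - c) := by
    intro c x
    have h0 := hρ.2.1 x
    have h1 : 0 ≤ ρ x ^ (5/3 : ℝ) := Real.rpow_nonneg h0 _
    have h2 : 0 ≤ t ^ (5/2 : ℝ) := Real.rpow_nonneg ht _
    by_cases hx : x - c ∈ ball (0:E3) (8 * D)
    · have hy := TF_en_bdd_young (1/2) (by norm_num) (ρ x) (t / ‖x - c‖) h0 (by positivity)
      have e : (t / ‖x - c‖) ^ (5/2 : ℝ) = t ^ (5/2 : ℝ) * J (x - c) := by
        rw [hJ, indicator_of_mem hx, Real.div_rpow ht (norm_nonneg _), div_eq_mul_inv,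
          ← Real.rpow_neg (norm_nonneg _)]
      rw [e] at hy
      have h3 : 0 ≤ t / (8 * D) * ρ x := by positivity
      have e2 : 2/5 * (1/2 : ℝ) ^ (-(3/2) : ℝ) * (t ^ (5/2 : ℝ) * J (x - c)) = κ * t ^ (5/2 : ℝ) * J (x - c) := by
        rw [hκ]; ring
      rw [e2] at hy
      linarith
    · have h3 : 8 * D ≤ ‖x - c‖ := by rw [mem_ball_zero_iff, not_lt] at hx; exact hx
      have h4 : t / ‖x - c‖ * ρ x ≤ t / (8 * D) * ρ x :=
        mul_le_mul_of_nonneg_right (div_le_div_of_nonneg_left ht (by positivity) h3) h0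
      have h5 := hJ0 (x - c)
      have h6 : 0 ≤ κ * t ^ (5/2 : ℝ) * J (x - c) := by positivity
      linarith
  have iρ := hρ.2.2.1
  have i53 := hρ.2.2.2
  have iJ : ∀ c : E3, Integrable (fun x => J (x - c)) := fun c => hJi.comp_sub_right c
  have iV : ∀ c : E3, Integrable (fun x => t / ‖x - c‖ * ρ x) := fun c => by
    refine ((TF_E2_int ρ (nice_of_adm hρ) c).const_mul t).congr (Eventually.of_forall (fun x => ?_))
    simp only; ring
  have bd : ∀ c : E3, ∫ x, t / ‖x - c‖ * ρ x ≤ t / (8 * D) * (2 * t) + 3/10 * (∫ x, ρ x ^ (5/3 : ℝ))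
      + κ * t ^ (5/2 : ℝ) * ∫ u, J u := by
    intro c
    have iR : Integrable (fun x => t / (8 * D) * ρ x + 3/10 * ρ x ^ (5/3 : ℝ)) := (iρ.const_mul _).add (i53.const_mul _)
    have iS : Integrable (fun x => t / (8 * D) * ρ x + 3/10 * ρ x ^ (5/3 : ℝ) + κ * t ^ (5/2 : ℝ) * J (x - c)) :=
      iR.add ((iJ c).const_mul (κ * t ^ (5/2 : ℝ)))
    refine (integral_mono (iV c) iS (pt c)).trans (le_of_eq ?_)
    rw [integral_add iR ((iJ c).const_mul _), integral_add (iρ.const_mul _) (i53.const_mul _), integral_const_mul,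
      integral_const_mul, integral_const_mul, integral_sub_right_eq_self, hm]
  have e : ∫ x, (t / ‖x - a‖ + t / ‖x - b‖) * ρ x = (∫ x, t / ‖x - a‖ * ρ x) + ∫ x, t / ‖x - b‖ * ρ x := by
    rw [← integral_add (iV a) (iV b)]
    congr 1; funext x; ring
  have hpot : 0 ≤ ∫ x, ρ x * pot ρ x := integral_nonneg (fun x => mul_nonneg (hρ.2.1 x) (pot_nonneg hρ.2.1 x))
  have ba := bd a
  have bb := bd b
  have e3 : t / (8 * D) * (2 * t) = t ^ 2 / (4 * D) := by field_simp; ring
  have e4 : t ^ 2 / (2 * D) = 2 * (t ^ 2 / (4 * D)) := by field_simp; ring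
  rw [e3] at ba bb
  rw [e, e4]
  have hT : 0 ≤ ∫ x, ρ x ^ (5/3 : ℝ) := integral_nonneg (fun x => Real.rpow_nonneg (hρ.2.1 x) _)
  nlinarith [ba, bb, hpot]

end Pool.Agent.V5helper98.TF
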