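import Pool.Agent.Helper557.TF.All

/-!
Newton's theorem for radial densities in three dimensions, and the layer formula for the
electrostatic energy of a radial density.
-/

set_option autoImplicit false
open MeasureTheory Set Filter Topology Metric
open scoped RealInnerProductSpace BigOperators ENNReal
open Pool.Agent.Helper557 Pool.Agent.Helper557.TFP

namespace Pool.Agent.V5helper98.TF

/-- radial functions -/
def Rad (f : E3 → ℝ) : Prop := ∀ x y : E3, ‖x‖ = ‖y‖ → f x = f y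

/-- the unit sphere parametrisation has norm one -/
lemma sph_norm (w e1 e2 : E3) (hw : ‖w‖ = 1) (h1 : ‖e1‖ = 1) (h2 : ‖e2‖ = 1)
    (hw1 : inner ℝ w e1 = (0:ℝ)) (hw2 : inner ℝ w e2 = (0:ℝ)) (h12 : inner ℝ e1 e2 = (0:ℝ))
    {c : ℝ} (hc : c ∈ Ioo (-1 : ℝ) 1) (φ : ℝ) :
    ‖c • w + √(1 - c ^ 2) • (Real.cos φ • e1 + Real.sin φ • e2)‖ = 1 ∧
    inner ℝ w (c • w + √(1 - c ^ 2) • (Real.cos φ • e1 + Real.sin φ • e2)) = c := by
  have hww : inner ℝ w w = (1:ℝ) := by rw [real_inner_self_eq_norm_sq, hw]; norm_num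
  have h11 : inner ℝ e1 e1 = (1:ℝ) := by rw [real_inner_self_eq_norm_sq, h1]; norm_num
  have h22 : inner ℝ e2 e2 = (1:ℝ) := by rw [real_inner_self_eq_norm_sq, h2]; norm_num
  have hw1' : inner ℝ e1 w = (0:ℝ) := by rw [real_inner_comm]; exact hw1
  have hw2' : inner ℝ e2 w = (0:ℝ) := by rw [real_inner_comm]; exact hw2
  have h12' : inner ℝ e2 e1 = (0:ℝ) := by rw [real_inner_comm]; exact h12
  have hc2 : 0 ≤ 1 - c ^ 2 := by nlinarith [hc.1, hc.2]
  have hs : √(1 - c ^ 2) ^ 2 = 1 - c ^ 2 := Real.sq_sqrt hc2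
  obtain ⟨v, hv⟩ : ∃ v : E3, v = c • w + √(1 - c ^ 2) • (Real.cos φ • e1 + Real.sin φ • e2) :=
    ⟨_, rfl⟩
  rw [← hv]
  have hvw : inner ℝ w v = c := by
    rw [hv]
    simp only [inner_add_right, inner_smul_right, hww, hw1, hw2]
    ring
  have hvv : inner ℝ v v = (1:ℝ) := by
    rw [hv]
    simp only [inner_add_left, inner_add_right, inner_smul_left, inner_smul_right, hww, hw1,
      hw2, h11, h22, h12, hw1', hw2', h12', RCLike.conj_to_real]
    have hcs := Real.sin_sq_add_cos_sq φ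
    linear_combination (Real.cos φ ^ 2 + Real.sin φ ^ 2) * hs + (1 - c ^ 2) * hcs
  refine ⟨?_, hvw⟩
  have h3 := real_inner_self_eq_norm_sq v
  rw [hvv] at h3
  nlinarith [norm_nonneg v]

/-- the Coulomb kernel averaged over spheres -/
lemma sph_coul (g : ℝ → ℝ≥0∞) (hg : Measurable g) (x : E3) (hx : x ≠ 0) :
    ∫⁻ y, g ‖y‖ * ENNReal.ofReal (1 / ‖x - y‖) =
      ∫⁻ r in Ioi (0:ℝ), g r * ENNReal.ofReal (4 * Real.pi * r ^ 2 / max ‖x‖ r) := by
  obtain ⟨ρ, hρdef⟩ : ∃ ρ, ρ = ‖x‖ := ⟨_, rfl⟩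
  have hρ : 0 < ρ := by rw [hρdef]; exact norm_pos_iff.mpr hx
  obtain ⟨w, hwdef⟩ : ∃ w : E3, w = ρ⁻¹ • x := ⟨_, rfl⟩
  have hw : ‖w‖ = 1 := by
    rw [hwdef, norm_smul, ← hρdef, Real.norm_eq_abs, abs_of_pos (by positivity)]
    exact inv_mul_cancel₀ hρ.ne'
  have hxw : x = ρ • w := by
    rw [hwdef, smul_smul, mul_inv_cancel₀ hρ.ne', one_smul]
  obtain ⟨e1, e2, h1, h2, hw1, hw2, h12⟩ := TH_yuk_basic_frame w hw
  have hmeas : Measurable (fun y : E3 => g ‖y‖ * ENNReal.ofReal (1 / ‖x - y‖)) :=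
    (hg.comp measurable_norm).mul (by fun_prop)
  rw [TH_yuk_basic_sph.spherical w e1 e2 hw h1 h2 hw1 hw2 h12 _ hmeas, ← hρdef]
  refine setLIntegral_congr_fun measurableSet_Ioi (fun r hr => ?_)
  have hr' : (0:ℝ) < r := hr
  have step : ∀ c ∈ Ioo (-1 : ℝ) 1, ∫⁻ φ in Ioo (-Real.pi) Real.pi,
      g ‖r • (c • w + √(1 - c ^ 2) • (Real.cos φ • e1 + Real.sin φ • e2))‖ *
        ENNReal.ofReal (1 / ‖x - r • (c • w + √(1 - c ^ 2) • (Real.cos φ • e1 + Real.sin φ • e2))‖) *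
        ENNReal.ofReal (r ^ 2) =
      (g r * ENNReal.ofReal (r ^ 2 * (2 * Real.pi))) *
        ENNReal.ofReal (1 / √(ρ ^ 2 - 2 * ρ * r * c + r ^ 2)) := by
    intro c hc
    have hpt : ∀ φ : ℝ,
        g ‖r • (c • w + √(1 - c ^ 2) • (Real.cos φ • e1 + Real.sin φ • e2))‖ *
        ENNReal.ofReal (1 / ‖x - r • (c • w + √(1 - c ^ 2) • (Real.cos φ • e1 + Real.sin φ • e2))‖) *
        ENNReal.ofReal (r ^ 2) =
        g r * ENNReal.ofReal (1 / √(ρ ^ 2 - 2 * ρ * r * c + r ^ 2)) * ENNReal.ofReal (r ^ 2) := by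
      intro φ
      obtain ⟨hvn, hvw⟩ := sph_norm w e1 e2 hw h1 h2 hw1 hw2 h12 hc φ
      obtain ⟨v, hv⟩ : ∃ v : E3, v = c • w + √(1 - c ^ 2) • (Real.cos φ • e1 + Real.sin φ • e2) :=
        ⟨_, rfl⟩
      rw [← hv] at hvn hvw ⊢
      have hn1 : ‖r • v‖ = r := by
        rw [norm_smul, hvn, Real.norm_eq_abs, abs_of_pos hr', mul_one]
      have hn2 : ‖x - r • v‖ = √(ρ ^ 2 - 2 * ρ * r * c + r ^ 2) := by
        rw [← Real.sqrt_sq (norm_nonneg (x - r • v))]
        congr 1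
        rw [norm_sub_sq_real, ← hρdef, hn1]
        have h5 : inner ℝ x (r • v) = ρ * r * c := by
          rw [hxw, inner_smul_left, inner_smul_right, hvw]
          simp only [RCLike.conj_to_real]
          ring
        rw [h5]
        ring
      rw [hn1, hn2]
    rw [lintegral_congr hpt, setLIntegral_const, Real.volume_Ioo,
      ENNReal.ofReal_mul (p := r ^ 2) (by positivity),
      show Real.pi - -Real.pi = 2 * Real.pi by ring]
    ring
  rw [setLIntegral_congr_fun measurableSet_Ioo step, lintegral_const_mul _ (by fun_prop),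
    TH_yuk_basic_c ρ r hρ hr', mul_assoc, ← ENNReal.ofReal_mul (by positivity)]
  congr 2
  ring

/-- integrals of radial functions -/
lemma sph_rad (g : ℝ → ℝ≥0∞) (hg : Measurable g) :
    ∫⁻ y : E3, g ‖y‖ = ∫⁻ r in Ioi (0:ℝ), g r * ENNReal.ofReal (4 * Real.pi * r ^ 2) := by
  set w : E3 := EuclideanSpace.single 0 1 with hwdef
  have hw : ‖w‖ = 1 := by simp [hwdef]
  obtain ⟨e1, e2, h1, h2, hw1, hw2, h12⟩ := TH_yuk_basic_frame w hw
  have hmeas : Measurable (fun y : E3 => g ‖y‖) := hg.comp measurable_norm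
  rw [TH_yuk_basic_sph.spherical w e1 e2 hw h1 h2 hw1 hw2 h12 _ hmeas]
  refine setLIntegral_congr_fun measurableSet_Ioi (fun r hr => ?_)
  have hr' : (0:ℝ) < r := hr
  have step : ∀ c ∈ Ioo (-1 : ℝ) 1, ∫⁻ φ in Ioo (-Real.pi) Real.pi,
      g ‖r • (c • w + √(1 - c ^ 2) • (Real.cos φ • e1 + Real.sin φ • e2))‖ *
        ENNReal.ofReal (r ^ 2) =
      g r * ENNReal.ofReal (r ^ 2) * ENNReal.ofReal (2 * Real.pi) := by
    intro c hc
    have hpt : ∀ φ : ℝ,
        g ‖r • (c • w + √(1 - c ^ 2) • (Real.cos φ • e1 + Real.sin φ • e2))‖ *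
        ENNReal.ofReal (r ^ 2) = g r * ENNReal.ofReal (r ^ 2) := by
      intro φ
      obtain ⟨hvn, hvw⟩ := sph_norm w e1 e2 hw h1 h2 hw1 hw2 h12 hc φ
      rw [norm_smul, hvn, Real.norm_eq_abs, abs_of_pos hr', mul_one]
    rw [lintegral_congr hpt, setLIntegral_const, Real.volume_Ioo]
    congr 2
    ring
  rw [setLIntegral_congr_fun measurableSet_Ioo step, setLIntegral_const, Real.volume_Ioo, mul_assoc, mul_assoc,
    ← ENNReal.ofReal_mul (by positivity), ← ENNReal.ofReal_mul (by positivity)]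
  congr 2
  ring

/-- **Newton's theorem**, extended-real form -/
lemma newton_l (σ : E3 → ℝ) (hm : Measurable σ) (hr : Rad σ) (x : E3) (hx : x ≠ 0) :
    ∫⁻ y, ENNReal.ofReal (σ y) * ENNReal.ofReal (1 / ‖x - y‖) =
      ∫⁻ y, ENNReal.ofReal (σ y) * ENNReal.ofReal (1 / max ‖x‖ ‖y‖) := by
  set w : E3 := EuclideanSpace.single 0 1 with hwdef
  have hw : ‖w‖ = 1 := by simp [hwdef]
  set g : ℝ → ℝ≥0∞ := fun r => ENNReal.ofReal (σ (r • w)) with hg
  have hgm : Measurable g := by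
    refine (hm.comp ?_).ennreal_ofReal
    fun_prop
  have hσ : ∀ y : E3, ENNReal.ofReal (σ y) = g ‖y‖ := by
    intro y
    simp only [hg]
    rw [hr y (‖y‖ • w) (by rw [norm_smul, hw, norm_norm, mul_one])]
  simp only [hσ]
  rw [sph_coul g hgm x hx]
  have e := sph_rad (fun r => g r * ENNReal.ofReal (1 / max ‖x‖ r)) (hgm.mul (by fun_prop))
  rw [e]
  refine setLIntegral_congr_fun measurableSet_Ioi (fun r hr => ?_)
  have hr' : (0:ℝ) < r := hr
  show g r * ENNReal.ofReal (4 * Real.pi * r ^ 2 / max ‖x‖ r)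
    = g r * ENNReal.ofReal (1 / max ‖x‖ r) * ENNReal.ofReal (4 * Real.pi * r ^ 2)
  have hp : 0 ≤ 1 / max ‖x‖ r := div_nonneg zero_le_one (le_max_of_le_right hr'.le)
  rw [mul_assoc (g r), ← ENNReal.ofReal_mul hp]
  congr 2
  ring

/-- **Newton's theorem** for the potential of a radial density -/
lemma newton_pot {σ : E3 → ℝ} (hm : Measurable σ) (h0 : ∀ x, 0 ≤ σ x) (hr : Rad σ) (x : E3)
    (hx : x ≠ 0) : pot σ x = ∫ y, σ y / max ‖x‖ ‖y‖ := by
  unfold pot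
  rw [integral_eq_lintegral_of_nonneg_ae
      (Eventually.of_forall (fun y => div_nonneg (h0 y) (norm_nonneg _)))
      (Measurable.aestronglyMeasurable (by fun_prop)),
    integral_eq_lintegral_of_nonneg_ae
      (Eventually.of_forall (fun y => div_nonneg (h0 y) (le_max_of_le_left (norm_nonneg _))))
      (Measurable.aestronglyMeasurable (by fun_prop))]
  congr 1
  have h := newton_l σ hm hr x hx
  have e1 : ∀ y, ENNReal.ofReal (σ y) * ENNReal.ofReal (1 / ‖x - y‖) = ENNReal.ofReal (σ y / ‖x - y‖) := by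
    intro y; rw [← ENNReal.ofReal_mul (h0 y), mul_one_div]
  have e2 : ∀ y, ENNReal.ofReal (σ y) * ENNReal.ofReal (1 / max ‖x‖ ‖y‖) = ENNReal.ofReal (σ y / max ‖x‖ ‖y‖) := by
    intro y; rw [← ENNReal.ofReal_mul (h0 y), mul_one_div]
  simpa only [e1, e2] using h

lemma inv_layer {a : ℝ} (ha : 0 < a) :
    ∫⁻ s in Ioi a, ENNReal.ofReal (1 / s ^ 2) = ENNReal.ofReal (1 / a) := by
  have h1 := integral_Ioi_rpow_of_lt (a := (-2 : ℝ)) (by norm_num) ha
  have h2 := integrableOn_Ioi_rpow_of_lt (a := (-2 : ℝ)) (by norm_num) ha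
  have e : ∀ s ∈ Ioi a, ENNReal.ofReal (1 / s ^ 2) = ENNReal.ofReal (s ^ (-2 : ℝ)) := by
    intro s hs
    have hs' : 0 < s := ha.trans hs
    rw [Real.rpow_neg hs'.le, one_div]
    congr 2
    norm_cast
  rw [setLIntegral_congr_fun measurableSet_Ioi e, ← ofReal_integral_eq_lintegral_ofReal h2
    ((ae_restrict_mem measurableSet_Ioi).mono (fun s hs => Real.rpow_nonneg (ha.trans hs).le _)), h1]
  congr 1
  rw [show (-2 : ℝ) + 1 = -1 by norm_num, Real.rpow_neg_one]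
  field_simp

lemma layer_swap (σ : E3 → ℝ) (hm : Measurable σ) (h : ℝ → ℝ≥0∞) (hh : Measurable h) :
    ∫⁻ x, ENNReal.ofReal (σ x) * ∫⁻ s in Ioi ‖x‖, h s =
      ∫⁻ s in Ioi (0:ℝ), (∫⁻ x in ball (0:E3) s, ENNReal.ofReal (σ x)) * h s := by
  have e1 : ∀ x : E3, ENNReal.ofReal (σ x) * ∫⁻ s in Ioi ‖x‖, h s =
      ∫⁻ s in Ioi (0:ℝ), ENNReal.ofReal (σ x) * (Ioi ‖x‖).indicator h s := by
    intro x
    rw [lintegral_const_mul _ (hh.indicator measurableSet_Ioi),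
      lintegral_indicator measurableSet_Ioi, Measure.restrict_restrict measurableSet_Ioi]
    congr 3
    exact (inter_eq_left.2 (Ioi_subset_Ioi (norm_nonneg x))).symm
  have hF : Measurable (fun p : E3 × ℝ => ENNReal.ofReal (σ p.1) * (Ioi ‖p.1‖).indicator h p.2) := by
    refine (hm.comp measurable_fst).ennreal_ofReal.mul ?_
    have : (fun p : E3 × ℝ => (Ioi ‖p.1‖).indicator h p.2)
        = {p : E3 × ℝ | ‖p.1‖ < p.2}.indicator (fun p => h p.2) := by
      funext p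
      by_cases hp : ‖p.1‖ < p.2
      · rw [indicator_of_mem (show p.2 ∈ Ioi ‖p.1‖ from hp),
          indicator_of_mem (show p ∈ {p : E3 × ℝ | ‖p.1‖ < p.2} from hp)]
      · rw [indicator_of_notMem (show p.2 ∉ Ioi ‖p.1‖ from hp),
          indicator_of_notMem (show p ∉ {p : E3 × ℝ | ‖p.1‖ < p.2} from hp)]
    rw [this]
    exact (hh.comp measurable_snd).indicator (measurableSet_lt (by fun_prop) (by fun_prop))
  rw [lintegral_congr e1, lintegral_lintegral_swap hF.aemeasurable]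
  refine setLIntegral_congr_fun measurableSet_Ioi (fun s _ => ?_)
  have e2 : ∀ x : E3, ENNReal.ofReal (σ x) * (Ioi ‖x‖).indicator h s
      = (ball (0:E3) s).indicator (fun x => ENNReal.ofReal (σ x) * h s) x := by
    intro x
    by_cases hx : ‖x‖ < s
    · rw [indicator_of_mem (show s ∈ Ioi ‖x‖ from hx), indicator_of_mem (by simpa using hx)]
    · rw [indicator_of_notMem (show s ∉ Ioi ‖x‖ from hx), indicator_of_notMem (by simpa using hx), mul_zero]
  rw [lintegral_congr e2, lintegral_indicator measurableSet_ball,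
    lintegral_mul_const _ hm.ennreal_ofReal]

/-- the mass inside the ball of radius `s` -/
noncomputable def Ms (σ : E3 → ℝ) (s : ℝ) : ℝ := ∫ y in ball (0:E3) s, σ y

lemma Ms_l {σ : E3 → ℝ} (h0 : ∀ x, 0 ≤ σ x) (hi : Integrable σ) (s : ℝ) :
    ∫⁻ x in ball (0:E3) s, ENNReal.ofReal (σ x) = ENNReal.ofReal (Ms σ s) :=
  (ofReal_integral_eq_lintegral_ofReal hi.integrableOn (Eventually.of_forall h0)).symm

lemma Ms_nonneg {σ : E3 → ℝ} (h0 : ∀ x, 0 ≤ σ x) (s : ℝ) : 0 ≤ Ms σ s :=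
  integral_nonneg (fun x => h0 x)

lemma Ms_mono {σ : E3 → ℝ} (h0 : ∀ x, 0 ≤ σ x) (hi : Integrable σ) : Monotone (Ms σ) :=
  fun _ _ hab => setIntegral_mono_set hi.integrableOn (Eventually.of_forall h0)
    (LE.le.eventuallyLE (ball_subset_ball hab))

lemma Ms_le {σ : E3 → ℝ} (h0 : ∀ x, 0 ≤ σ x) (hi : Integrable σ) (s : ℝ) : Ms σ s ≤ ∫ x, σ x :=
  setIntegral_le_integral hi (Eventually.of_forall h0)

lemma ae_ne0 : ∀ᵐ x : E3, x ≠ 0 := by
  have h1 : volume ({0} : Set E3) = 0 := measure_singleton 0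
  have := measure_eq_zero_iff_ae_notMem.1 h1
  filter_upwards [this] with x hx
  simpa using hx

/-- nuclear attraction as a layer integral -/
lemma layer1 {σ : E3 → ℝ} (hm : Measurable σ) (h0 : ∀ x, 0 ≤ σ x) (hi : Integrable σ) :
    ∫⁻ x, ENNReal.ofReal (σ x / ‖x‖) = ∫⁻ s in Ioi (0:ℝ), ENNReal.ofReal (Ms σ s / s ^ 2) := by
  have h := layer_swap σ hm (fun s => ENNReal.ofReal (1 / s ^ 2)) (by fun_prop)
  have e1 : ∫⁻ x, ENNReal.ofReal (σ x / ‖x‖)
      = ∫⁻ x, ENNReal.ofReal (σ x) * ∫⁻ s in Ioi ‖x‖, ENNReal.ofReal (1 / s ^ 2) := by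
    refine lintegral_congr_ae ?_
    filter_upwards [ae_ne0] with x hx
    rw [inv_layer (norm_pos_iff.2 hx), ← ENNReal.ofReal_mul (h0 x), mul_one_div]
  rw [e1, h]
  refine setLIntegral_congr_fun measurableSet_Ioi (fun s _ => ?_)
  rw [Ms_l h0 hi, ← ENNReal.ofReal_mul (Ms_nonneg h0 s), mul_one_div]

lemma Ms_meas {σ : E3 → ℝ} (h0 : ∀ x, 0 ≤ σ x) (hi : Integrable σ) : Measurable (Ms σ) :=
  (Ms_mono h0 hi).measurable

/-- Coulomb energy as a layer integral -/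
lemma layer2 {σ : E3 → ℝ} (hm : Measurable σ) (h0 : ∀ x, 0 ≤ σ x) (hi : Integrable σ) :
    ∫⁻ x, ENNReal.ofReal (σ x) * ∫⁻ y, ENNReal.ofReal (σ y) * ENNReal.ofReal (1 / max ‖x‖ ‖y‖)
      = ∫⁻ s in Ioi (0:ℝ), ENNReal.ofReal (Ms σ s ^ 2 / s ^ 2) := by
  have inner : ∀ x : E3, x ≠ 0 →
      ∫⁻ y, ENNReal.ofReal (σ y) * ENNReal.ofReal (1 / max ‖x‖ ‖y‖)
        = ∫⁻ s in Ioi ‖x‖, ENNReal.ofReal (Ms σ s / s ^ 2) := by
    intro x hx
    have hx0 : 0 < ‖x‖ := norm_pos_iff.2 hx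
    have h := layer_swap σ hm ((Ioi ‖x‖).indicator (fun s => ENNReal.ofReal (1 / s ^ 2)))
      (Measurable.indicator (by fun_prop) measurableSet_Ioi)
    have e1 : ∀ y : E3, ENNReal.ofReal (1 / max ‖x‖ ‖y‖)
        = ∫⁻ s in Ioi ‖y‖, (Ioi ‖x‖).indicator (fun s => ENNReal.ofReal (1 / s ^ 2)) s := by
      intro y
      rw [lintegral_indicator measurableSet_Ioi, Measure.restrict_restrict measurableSet_Ioi,
        Ioi_inter_Ioi, inv_layer (lt_max_of_lt_left hx0)]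
    simp only [← e1] at h
    rw [h]
    have e2 : ∀ s ∈ Ioi (0:ℝ), (∫⁻ x in ball (0:E3) s, ENNReal.ofReal (σ x)) *
        (Ioi ‖x‖).indicator (fun s => ENNReal.ofReal (1 / s ^ 2)) s
        = (Ioi ‖x‖).indicator (fun s => ENNReal.ofReal (Ms σ s / s ^ 2)) s := by
      intro s _
      rw [Ms_l h0 hi]
      by_cases hs : s ∈ Ioi ‖x‖
      · rw [indicator_of_mem hs, indicator_of_mem hs, ← ENNReal.ofReal_mul (Ms_nonneg h0 s), mul_one_div]
      · rw [indicator_of_notMem hs, indicator_of_notMem hs, mul_zero]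
    rw [setLIntegral_congr_fun measurableSet_Ioi e2, lintegral_indicator measurableSet_Ioi,
      Measure.restrict_restrict measurableSet_Ioi]
    congr 2
    rw [inter_eq_left]
    exact Ioi_subset_Ioi hx0.le
  have e3 : ∫⁻ x, ENNReal.ofReal (σ x) * ∫⁻ y, ENNReal.ofReal (σ y) * ENNReal.ofReal (1 / max ‖x‖ ‖y‖)
      = ∫⁻ x, ENNReal.ofReal (σ x) * ∫⁻ s in Ioi ‖x‖, ENNReal.ofReal (Ms σ s / s ^ 2) := by
    refine lintegral_congr_ae ?_
    filter_upwards [ae_ne0] with x hx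
    rw [inner x hx]
  have hMs := Ms_meas h0 hi
  rw [e3, layer_swap σ hm (fun s => ENNReal.ofReal (Ms σ s / s ^ 2)) (by fun_prop)]
  refine setLIntegral_congr_fun measurableSet_Ioi (fun s _ => ?_)
  rw [Ms_l h0 hi, ← ENNReal.ofReal_mul (Ms_nonneg h0 s)]
  congr 1
  ring

end Pool.Agent.V5helper98.TF
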